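import Pool.Agent.H365.TF.Stm2

/-!
# TF2-RFG: the integral group ring of a finitely generated group (helper263)
-/

set_option autoImplicit false

namespace Pool.Agent.H365.TF

private theorem rfg_aux (W : Type) [Group W] (h : Group.FG W) :
    ∃ T : Finset (MonoidAlgebra ℤ W), Subring.closure (T : Set (MonoidAlgebra ℤ W)) = ⊤ := by
  classical
  obtain ⟨S, hS⟩ := Group.fg_iff'.1 h
  obtain ⟨S, hS1, hS⟩ := hS
  refine ⟨S.image (fun s => MonoidAlgebra.of ℤ W s) ∪ S.image (fun s => MonoidAlgebra.of ℤ W s⁻¹),
    ?_⟩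
  rw [eq_top_iff]
  intro x _
  set R := Subring.closure ((S.image (fun s => MonoidAlgebra.of ℤ W s) ∪
    S.image (fun s => MonoidAlgebra.of ℤ W s⁻¹) : Finset (MonoidAlgebra ℤ W)) :
      Set (MonoidAlgebra ℤ W)) with hR
  have h1 : ∀ w : W, MonoidAlgebra.of ℤ W w ∈ R ∧ MonoidAlgebra.of ℤ W w⁻¹ ∈ R := by
    intro w
    have hw : w ∈ Subgroup.closure (S : Set W) := by
      rw [hS]
      trivial
    induction hw using Subgroup.closure_induction with
    | mem s hs =>
      constructor
      · apply Subring.subset_closure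
        rw [Finset.coe_union, Finset.coe_image, Finset.coe_image]
        exact Or.inl ⟨s, hs, rfl⟩
      · apply Subring.subset_closure
        rw [Finset.coe_union, Finset.coe_image, Finset.coe_image]
        exact Or.inr ⟨s, hs, rfl⟩
    | one =>
      rw [inv_one, map_one]
      exact ⟨R.one_mem, R.one_mem⟩
    | mul a b _ _ ha hb =>
      rw [mul_inv_rev, map_mul, map_mul]
      exact ⟨R.mul_mem ha.1 hb.1, R.mul_mem hb.2 ha.2⟩
    | inv a _ ha =>
      rw [inv_inv]
      exact ⟨ha.2, ha.1⟩
  induction x using MonoidAlgebra.induction_on with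
  | of w => exact (h1 w).1
  | add x y hx hy => exact R.add_mem (hx trivial) (hy trivial)
  | smul n x hx => exact R.zsmul_mem (hx trivial) n

theorem t_RFG : S_RFG := fun W _ h => rfg_aux W h

end Pool.Agent.H365.TF
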